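import Pool.Agent.H636R2.RT.All
import Pool.Agent.H636R2.RT.FinAll

set_option autoImplicit false

namespace Pool.Agent.Results.MP_27fa52_an.MonotoneMajorant

open MeasureTheory Set Filter Topology

/-- A weight with `α_+ = α_- = 0`: measurable, `≥ 1`, submultiplicative on `ℝ`,
`log φ(t) / t → 0` as `t → ±∞`. -/
def IsWeight (φ : ℝ → ℝ) : Prop :=
  Measurable φ ∧ (∀ t, 1 ≤ φ t) ∧ (∀ t τ, φ (t + τ) ≤ φ t * φ τ) ∧
  Tendsto (fun t => Real.log (φ t) / t) atTop (𝓝 0) ∧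
  Tendsto (fun t => Real.log (φ t) / t) atBot (𝓝 0)

/-- `f ∈ L^1_φ(ℝ_+)`: `f` is measurable, vanishes on `(-∞, 0)` and `∫_0^∞ |f| φ < ∞`. -/
def InL1 (φ : ℝ → ℝ) (f : ℝ → ℂ) : Prop :=
  AEStronglyMeasurable f volume ∧ (∀ t, t < 0 → f t = 0) ∧
  IntegrableOn (fun t => ‖f t‖ * φ t) (Set.Ioi 0)

/-- `g ∈ L^∞_φ(ℝ_+)`: `g` is measurable on `(0, ∞)` and `g / φ` is essentially bounded there. -/
def InLinf (φ : ℝ → ℝ) (g : ℝ → ℂ) : Prop :=
  AEStronglyMeasurable g (volume.restrict (Set.Ioi 0)) ∧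
  ∃ K : ℝ, ∀ᵐ t ∂(volume.restrict (Set.Ioi (0:ℝ))), ‖g t‖ ≤ K * φ t

/-- The transform `∫_0^∞ f(t) e^{-itz} dt`. -/
noncomputable def hat (f : ℝ → ℂ) (z : ℂ) : ℂ :=
  ∫ t in Set.Ioi (0:ℝ), f t * Complex.exp (-(Complex.I * (t:ℂ) * z))

/-- The two conditions on the transform of `f`: it has no zero in `Im z ≤ 0` and
`limsup_{y → -∞} log |hat f (iy)| / |y| = 0` (a limsup of extended real numbers). -/
def TransformConditions (f : ℝ → ℂ) : Prop :=
  (∀ z : ℂ, z.im ≤ 0 → hat f z ≠ 0) ∧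
  Filter.limsup (fun y : ℝ => ((Real.log ‖hat f (y * Complex.I)‖ / |y| : ℝ) : EReal)) atBot = 0

/-- Completeness of the right translates of `f` in the form of Q1: the only `g ∈ L^∞_φ(ℝ_+)` with
`∫_0^∞ f(t) g(t+τ) dt = 0` for all `τ > 0` is `g = 0` a.e. on `(0, ∞)`. -/
def TranslatesComplete (φ : ℝ → ℝ) (f : ℝ → ℂ) : Prop :=
  ∀ g : ℝ → ℂ, InLinf φ g →
  (∀ τ : ℝ, 0 < τ → ∫ t in Set.Ioi (0:ℝ), f t * g (t + τ) = 0) →
  ∀ᵐ t ∂(volume.restrict (Set.Ioi (0:ℝ))), g t = 0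

/-- **The conclusion of Q1 for every weight, for `f` with `∫ |f| ψ² < ∞`**, where `ψ` is any
nondecreasing function with `φ ≤ ψ` on `[0, ∞)` (for a nondecreasing weight, `ψ = φ`; in general
the least such `ψ` is `sup_{0 ≤ s ≤ t} φ(s)`), in the quasi-analytic case
`∫_0^∞ log φ(t) / (1+t²) dt = ∞`.  No regularity of `φ` is assumed. -/
theorem result (φ : ℝ → ℝ) (hφ : IsWeight φ)
    (hdiv : ¬ IntegrableOn (fun t => Real.log (φ t) / (1 + t ^ 2)) (Set.Ioi 0))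
    (ψ : ℝ → ℝ) (hψ : MonotoneOn ψ (Set.Ici 0)) (hφψ : ∀ t, 0 ≤ t → φ t ≤ ψ t)
    (f : ℝ → ℂ) (hf : InL1 (fun t => ψ t ^ 2) f) (hT : TransformConditions f) :
    TranslatesComplete φ f := by
  intro g hg hrel
  have hA : RtRt.Adm f := by
    refine ⟨hT.1, ?_⟩
    have h := hT.2
    have e : (fun y : ℝ => ((Real.log ‖hat f (y * Complex.I)‖ / |y| : ℝ) : EReal)) =
        fun y : ℝ => ((Real.log ‖RtRt.fh f ⟨0, y⟩‖ / |y| : ℝ) : EReal) := by
      funext y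
      have e1 : (y * Complex.I : ℂ) = ⟨0, y⟩ := by
        apply Complex.ext <;> simp
      rw [e1]; rfl
    rw [e] at h
    exact h
  have hm : AEMeasurable (RtRt.sh φ) (volume.restrict (Set.Ioi 0)) :=
    aemeasurable_restrict_of_monotoneOn measurableSet_Ioi
      ((RtRt.sh_mono φ hφ).mono Set.Ioi_subset_Ici_self)
  have hint : IntegrableOn (fun t => ‖f t‖ * RtRt.sh φ t ^ 2) (Set.Ioi 0) := by
    refine Integrable.mono' hf.2.2 (hf.1.restrict.norm.mul (hm.pow_const 2).aestronglyMeasurable) ?_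
    filter_upwards [ae_restrict_mem measurableSet_Ioi] with t ht
    have ht0 : (0:ℝ) ≤ t := le_of_lt ht
    rw [Real.norm_of_nonneg (by positivity)]
    refine mul_le_mul_of_nonneg_left ?_ (norm_nonneg _)
    have h1 := RtRt.sh_one φ hφ t ht0
    refine pow_le_pow_left₀ (by linarith) ?_ 2
    exact RtRt.sh_le φ t _ ht0 fun s hs hst =>
      (hφψ s hs).trans (hψ hs ht0 hst)
  exact RtRt.fin_D RtRt.rt_all φ hφ hdiv f hf.1 hint hA g hg.1 hg.2 hrel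

end Pool.Agent.Results.MP_27fa52_an.MonotoneMajorant
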