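import Pool.Agent.H636R2.RTG.Fin

set_option autoImplicit false

namespace Pool.Agent.Results.MP_27fa52_an.StrictSubadditive

open MeasureTheory Set Filter Topology

/-- A weight with `α_+ = α_- = 0`: measurable, `≥ 1`, submultiplicative on `ℝ`,
`log φ(t) / t → 0` as `t → ±∞`. -/
def IsWeight (φ : ℝ → ℝ) : Prop :=
  Measurable φ ∧ (∀ t, 1 ≤ φ t) ∧ (∀ t τ, φ (t + τ) ≤ φ t * φ τ) ∧
  Tendsto (fun t => Real.log (φ t) / t) atTop (𝓝 0) ∧
  Tendsto (fun t => Real.log (φ t) / t) atBot (𝓝 0)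

/-- `f ∈ L^1_φ(ℝ_+)`: `f` is measurable, vanishes on `(-∞, 0)` and `∫_0^∞ |f| φ < ∞`. -/
def InL1 (φ : ℝ → ℝ) (f : ℝ → ℂ) : Prop :=
  AEStronglyMeasurable f volume ∧ (∀ t, t < 0 → f t = 0) ∧
  IntegrableOn (fun t => ‖f t‖ * φ t) (Set.Ioi 0)

/-- `g ∈ L^∞_φ(ℝ_+)`: `g` is measurable on `(0, ∞)` and `g / φ` is essentially bounded there. -/
def InLinf (φ : ℝ → ℝ) (g : ℝ → ℂ) : Prop :=
  AEStronglyMeasurable g (volume.restrict (Set.Ioi 0)) ∧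
  ∃ K : ℝ, ∀ᵐ t ∂(volume.restrict (Set.Ioi (0:ℝ))), ‖g t‖ ≤ K * φ t

/-- The transform `∫_0^∞ f(t) e^{-itz} dt`. -/
noncomputable def hat (f : ℝ → ℂ) (z : ℂ) : ℂ :=
  ∫ t in Set.Ioi (0:ℝ), f t * Complex.exp (-(Complex.I * (t:ℂ) * z))

/-- The two conditions on the transform of `f`: it has no zero in `Im z ≤ 0` and
`limsup_{y → -∞} log |hat f (iy)| / |y| = 0` (a limsup of extended real numbers). -/
def TransformConditions (f : ℝ → ℂ) : Prop :=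
  (∀ z : ℂ, z.im ≤ 0 → hat f z ≠ 0) ∧
  Filter.limsup (fun y : ℝ => ((Real.log ‖hat f (y * Complex.I)‖ / |y| : ℝ) : EReal)) atBot = 0

/-- Completeness of the right translates of `f` in the form of Q1: the only `g ∈ L^∞_φ(ℝ_+)` with
`∫_0^∞ f(t) g(t+τ) dt = 0` for all `τ > 0` is `g = 0` a.e. on `(0, ∞)`. -/
def TranslatesComplete (φ : ℝ → ℝ) (f : ℝ → ℂ) : Prop :=
  ∀ g : ℝ → ℂ, InLinf φ g →
  (∀ τ : ℝ, 0 < τ → ∫ t in Set.Ioi (0:ℝ), f t * g (t + τ) = 0) →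
  ∀ᵐ t ∂(volume.restrict (Set.Ioi (0:ℝ))), g t = 0

/-- **Q1 holds for weights with strictly subadditive logarithm.**
On `[0, ∞)` the weight is comparable to `e^q`, where `q` is nondecreasing, `q(t)/t` is
nonincreasing, and for arbitrarily large `T` one has `q(s) + q(t) - q(s+t) ≥ T^{9/10}` for all
`s, t ≥ T`.  (A concave `q` with `∫_0^∞ q(t)/(1+t²) dt = ∞` has these properties, but `q` need
not be concave.) -/
theorem result (φ : ℝ → ℝ) (hφ : IsWeight φ) (q : ℝ → ℝ) (c C : ℝ) (hc : 0 < c)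
    (hq1 : MonotoneOn q (Set.Ici 0)) (hq2 : AntitoneOn (fun t => q t / t) (Set.Ioi 0))
    (hgap : ∀ A : ℝ, ∃ T, A ≤ T ∧
      ∀ s t, T ≤ s → T ≤ t → T ^ ((9:ℝ) / 10) ≤ q s + q t - q (s + t))
    (hφq : ∀ t, 0 ≤ t → c * Real.exp (q t) ≤ φ t ∧ φ t ≤ C * Real.exp (q t))
    (f : ℝ → ℂ) (hf : InL1 φ f) (hT : TransformConditions f) :
    TranslatesComplete φ f := by
  intro g hg hrel
  have hlim : Filter.limsup
      (fun y : ℝ => ((Real.log ‖RtG.fh f ⟨0, y⟩‖ / |y| : ℝ) : EReal)) atBot = 0 := by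
    have h := hT.2
    have e : (fun y : ℝ => ((Real.log ‖hat f (y * Complex.I)‖ / |y| : ℝ) : EReal)) =
        fun y : ℝ => ((Real.log ‖RtG.fh f ⟨0, y⟩‖ / |y| : ℝ) : EReal) := by
      funext y
      have e1 : (y * Complex.I : ℂ) = ⟨0, y⟩ := by
        apply Complex.ext <;> simp
      rw [e1]; rfl
    rw [e] at h
    exact h
  exact RtG.fin_G φ hφ.2.1 hφ.2.2.2.1 q c C hc hq1 hq2 hgap hφq f hf.1 hf.2.2 hT.1 hlim
    g hg.1 hg.2 hrel

end Pool.Agent.Results.MP_27fa52_an.StrictSubadditive
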